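import Pool.Agent.Helper76.SGC.Goals

/-!
# Project SG, packet SGC1-CARDA: the number of equations of the Siegel system
-/

set_option autoImplicit false

namespace Pool.Agent.Helper54.SGC1

open Pool.Agent.Helper42.SG Pool.Agent.Helper76.SGC

/-- the number of the `α0` with prescribed values in the block `j` -/
theorem card_block (h1 : SPL) (n : ℕ) (e : ℕ → ℕ) (j : Fin n) :
    Fintype.card {α0 : ∀ h, Ax n e h // (α0 (hz j)).1.val = 0 ∧ (α0 (hz j)).2.val = 0 ∧
      (α0 (ho j)).1.val = 0 ∧ (α0 (ho j)).2.val = 0} * (4 ^ e j.val * (n + 1)) ^ 2 =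
    Fintype.card (∀ h, Ax n e h) := by
  classical
  have hne : hz j ≠ ho j := by
    intro h
    have := congrArg Fin.val h
    simp only [hz, ho] at this
    omega
  have hpos : ∀ h : Fin (2 * n), 0 < 4 ^ e (h.val / 2) := fun h => by positivity
  have h2 := h1 (Fin (2 * n)) (fun h => Ax n e h) (hz j) (ho j) hne
    (⟨0, hpos _⟩, ⟨0, Nat.succ_pos n⟩) (⟨0, hpos _⟩, ⟨0, Nat.succ_pos n⟩) ℕ (fun _ => 1)
  simp only [Finset.sum_const, Finset.card_univ, smul_eq_mul, mul_one] at h2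
  have hc : Fintype.card {α0 : ∀ h, Ax n e h // α0 (hz j) = (⟨0, hpos _⟩, ⟨0, Nat.succ_pos n⟩) ∧
      α0 (ho j) = (⟨0, hpos _⟩, ⟨0, Nat.succ_pos n⟩)} =
      Fintype.card {α0 : ∀ h, Ax n e h // (α0 (hz j)).1.val = 0 ∧ (α0 (hz j)).2.val = 0 ∧
      (α0 (ho j)).1.val = 0 ∧ (α0 (ho j)).2.val = 0} := by
    refine Fintype.card_congr (Equiv.subtypeEquivRight fun α0 => ?_)
    rw [Prod.ext_iff, Prod.ext_iff, Fin.ext_iff, Fin.ext_iff, Fin.ext_iff, Fin.ext_iff, and_assoc]
  rw [hc] at h2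
  have hz1 : Fintype.card (Ax n e (hz j)) = 4 ^ e j.val * (n + 1) := by
    rw [Fintype.card_prod, Fintype.card_fin, Fintype.card_fin]
    have : (hz j).val / 2 = j.val := by
      simp only [hz]
      omega
    rw [this]
  have ho1 : Fintype.card (Ax n e (ho j)) = 4 ^ e j.val * (n + 1) := by
    rw [Fintype.card_prod, Fintype.card_fin, Fintype.card_fin]
    have : (ho j).val / 2 = j.val := by
      simp only [ho]
      omega
    rw [this]
  rw [hz1, ho1] at h2
  rw [h2, pow_two]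

theorem carda (h1 : SPL) : CARDA := by
  intro n k0 e hn
  have hI : Fintype.card (Idx n n n e) = Fintype.card (∀ h, Ax n e h) * n ^ 2 := by
    rw [Fintype.card_prod]
    congr 1
    rw [Fintype.card_fun, Fintype.card_fin, Fintype.card_fin]
  have hR : Fintype.card (Rows n k0 e) = ∑ j : Fin n,
      Fintype.card {α0 : ∀ h, Ax n e h // (α0 (hz j)).1.val = 0 ∧ (α0 (hz j)).2.val = 0 ∧
        (α0 (ho j)).1.val = 0 ∧ (α0 (ho j)).2.val = 0} *
        (144 * k0 ^ 2 * n ^ 2 * (4 ^ e j.val) ^ 2) := by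
    rw [Fintype.card_sigma]
    refine Finset.sum_congr rfl fun j _ => ?_
    rw [Fintype.card_prod]
    congr 1
    simp only [Fintype.card_prod, Fintype.card_fin, Fintype.card_bool]
    ring
  have key : (n + 1) ^ 2 * (2 * Fintype.card (Rows n k0 e)) =
      (288 * k0 ^ 2 * n) * (Fintype.card (∀ h, Ax n e h) * n ^ 2) := by
    rw [hR, Finset.mul_sum, Finset.mul_sum]
    have : ∀ j ∈ (Finset.univ : Finset (Fin n)), (n + 1) ^ 2 * (2 *
        (Fintype.card {α0 : ∀ h, Ax n e h // (α0 (hz j)).1.val = 0 ∧ (α0 (hz j)).2.val = 0 ∧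
          (α0 (ho j)).1.val = 0 ∧ (α0 (ho j)).2.val = 0} *
          (144 * k0 ^ 2 * n ^ 2 * (4 ^ e j.val) ^ 2))) =
        288 * k0 ^ 2 * (Fintype.card (∀ h, Ax n e h) * n ^ 2) := by
      intro j _
      rw [← card_block h1 n e j]
      ring
    rw [Finset.sum_congr rfl this, Finset.sum_const, Finset.card_univ, Fintype.card_fin,
      smul_eq_mul]
    ring
  have h3 : 288 * k0 ^ 2 * n ≤ (n + 1) ^ 2 := by
    have h4 : 288 * k0 ^ 2 ≤ n := le_trans
      (Nat.mul_le_mul_left _ (Nat.pow_le_pow_left (Nat.le_add_right k0 2) 2)) hn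
    calc 288 * k0 ^ 2 * n ≤ n * n := Nat.mul_le_mul_right _ h4
      _ ≤ (n + 1) ^ 2 := by nlinarith
  rw [hI]
  refine le_of_mul_le_mul_left (a := (n + 1) ^ 2) ?_ (Nat.pow_pos (Nat.succ_pos n))
  rw [key]
  exact Nat.mul_le_mul_right _ h3

end Pool.Agent.Helper54.SGC1
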